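import Pool.Agent.MP_cce4c9_lc.H54.RigA

/-! Rigidity of torsion classes under base change, relative to the elementary facts `Gd`. -/

set_option autoImplicit false

open WithZero Finsupp Module
open scoped IntermediateField

namespace Pool.Agent.MP_cce4c9_lc.H54

open Pool.Agent.MP_cce4c9_lc.H87 Pool.Agent.MP_cce4c9_lc.H7

section BC

variable {k K Ω : Type} [Field k] [Field K] [Algebra k K] [Field Ω] [Algebra k Ω]
  (B : BCK k K Ω)

theorem rp_io' {P : KP k Ω} (R : Red B.toBCD P) (GK : Gd k K) (z : Place k K) :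
    R.rp (B.io z) = z := by
  symm
  refine Place.eq_of_le _ _ fun h hh => (R.rp_iff _ _).2 ⟨by rw [B.io_val]; exact hh, ?_⟩
  have : (B.io z).ev (algebraMap K B.F h) = algebraMap k Ω (z.ev h) := by
    apply Place.ev_eq
    rw [← IsScalarTower.algebraMap_apply, IsScalarTower.algebraMap_apply k K B.F, ← map_sub,
      B.io_val]
    exact (GK.res z).ev_spec hh
  rw [this]
  exact P.mem _

theorem map_io_rp {P : KP k Ω} (R : Red B.toBCD P) (GK : Gd k K) (D : Dv k K) :
    (D.mapDomain B.io).mapDomain R.rp = D := by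
  rw [← Finsupp.mapDomain_comp, show R.rp ∘ B.io = id from funext (rp_io' B R GK),
    Finsupp.mapDomain_id]

theorem mem_LL_io {D : Dv k K} {h : K} (hh : h ∈ LL D) :
    algebraMap K B.F h ∈ LL (D.mapDomain B.io) := by
  intro w
  by_cases hw : w ∈ Set.range B.io
  · obtain ⟨z, rfl⟩ := hw
    rw [B.io_val, Finsupp.mapDomain_apply B.io_inj]
    exact hh z
  · rw [Finsupp.mapDomain_of_notMem_range _ _ hw]
    by_cases h0 : h = 0
    · simp [h0]
    · rw [(B.io_or w).resolve_left hw h h0, exp_zero]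

theorem finrank_io (D : Dv k K) [FiniteDimensional k (LL D)]
    [FiniteDimensional Ω (LL (D.mapDomain B.io))] :
    finrank k (LL D) ≤ finrank Ω (LL (D.mapDomain B.io)) := by
  let b := Module.finBasis k (LL D)
  have h1 : LinearIndependent k fun i => (b i : K) :=
    b.linearIndependent.map' (LL D).subtype (Submodule.ker_subtype _)
  have h2 := B.li _ _ h1
  have h3 : LinearIndependent Ω fun i =>
      (⟨_, mem_LL_io B (b i).2⟩ : LL (D.mapDomain B.io)) :=
    LinearIndependent.of_comp (LL (D.mapDomain B.io)).subtype h2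
  simpa using h3.fintype_card_le_finrank

theorem genus_le [Nonempty (Place k K)] {g g' : ℕ} (hg : IsGenus k K g)
    (hg' : IsGenus Ω B.F g') : g' ≤ g := by
  obtain ⟨z⟩ := ‹Nonempty (Place k K)›
  let D : Dv k K := single z (2 * g + 2 * g' : ℤ)
  have hD : D.degree = 2 * g + 2 * g' := Finsupp.degree_single _ _
  have hD' : (D.mapDomain B.io).degree = 2 * g + 2 * g' := by
    rw [Finsupp.degree_mapDomain, hD]
  have := hg.fin D
  have := hg'.fin (D.mapDomain B.io)
  have h1 := finrank_io B D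
  have h2 := hg.eq D (by rw [hD]; omega)
  have h3 := hg'.eq (D.mapDomain B.io) (by rw [hD']; omega)
  rw [hD] at h2
  rw [hD'] at h3
  omega

end BC

/-- The elementary facts hold in every function field. -/
def StmtGd : Prop := ∀ (k K : Type) [Field k] [IsAlgClosed k] [Field K] [Algebra k K],
  IsFF k K → Gd k K

theorem rigd_of (hGd : StmtGd) (hLL : StmtLL) (hDEG : StmtDEG) (hGEN : StmtGEN)
    (hDISC : StmtDISC) : StmtRIGD := by
  intro k K Ω _ _ _ _ _ _ _ B P R l hK hl Φ D h hΦ hD h0 hh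
  classical
  have GK := hGd k K hK
  have GF := hGd Ω B.F B.ff
  obtain ⟨g, hg⟩ := (hGEN k K hK).1
  obtain ⟨g', hg'⟩ := (hGEN Ω B.F B.ff).1
  have := (hLL k K hK).2.2.2
  have hle := genus_le B hg hg'
  obtain ⟨S, -, hS, hS0⟩ := hg.red Set.univ Set.infinite_univ
  set D0 : Dv k K := ∑ v ∈ S, single v (1 : ℤ) with hD0
  have D0ap : ∀ z, D0 z = if z ∈ S then 1 else 0 := fun z => by
    rw [hD0, Finsupp.finsetSum_apply]
    simp [Finsupp.single_apply]
  have degD0 : D0.degree = g := by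
    rw [hD0, map_sum]
    simp [hS]
  have degD : D.degree = 0 := by
    rw [← Finsupp.degree_mapDomain R.rp D, hh, (hDEG k K hK).2]
  have l0 : (l : ℤ) ≠ 0 := fun e => hl (by
    have : l = 0 := by exact_mod_cast e
    simp [this])
  obtain ⟨u, hu, u0⟩ : ∃ u ∈ LL (D + D0.mapDomain B.io), u ≠ 0 := by
    have h1 := hg'.ge (D + D0.mapDomain B.io)
    rw [map_add, Finsupp.degree_mapDomain, degD, degD0] at h1
    by_contra hc
    push Not at hc
    rw [(Submodule.eq_bot_iff _).2 hc, finrank_bot] at h1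
    omega
  obtain ⟨a0, x, ha0, hx, rx⟩ := exists_norm R u0
  have dx : dv Ω (x : B.F) = dv Ω u := by
    rw [hx, GF.mul (by simpa using ha0) u0, GF.const, zero_add]
  set D1 : Dv Ω B.F := D + D0.mapDomain B.io + dv Ω u with hD1
  have D1pos : ∀ w, 0 ≤ D1 w := (GF.memLL u0).1 hu
  have hrp : D1.mapDomain R.rp = D0 + dv k (h * R.red x) := by
    rw [hD1, Finsupp.mapDomain_add, Finsupp.mapDomain_add, map_io_rp B R GK, hh, ← dx,
      ← R.rt x rx, GK.mul h0 rx]
    abel
  have hrp0 : D1.mapDomain R.rp = D0 := by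
    obtain ⟨c, hc⟩ := hS0 (h * R.red x) ((GK.memLL (mul_ne_zero h0 rx)).2 fun z => by
      rw [← hrp]
      exact fib_nonneg _ _ _ fun w _ => D1pos w)
    rw [hrp, ← hc, GK.const, add_zero]
  have f0 : Φ * u ^ l ≠ 0 := mul_ne_zero hΦ (pow_ne_zero _ u0)
  have df : dv Ω (Φ * u ^ l) = (l : ℤ) • (D + dv Ω u) := by
    rw [GF.mul hΦ (pow_ne_zero _ u0), GF.pow, hD, smul_add]
  by_cases hc : Φ * u ^ l ∈ Set.range (algebraMap Ω B.F)
  · obtain ⟨c, hc⟩ := hc
    rw [← hc, GF.const] at df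
    refine ⟨u⁻¹, inv_ne_zero u0, ?_⟩
    rw [GF.inv]
    exact (eq_neg_of_add_eq_zero_left ((smul_eq_zero.1 df.symm).resolve_left l0)).symm
  exfalso
  obtain ⟨a, c, hφ, hn⟩ := R.nc _ hc
  refine hn (hS0 _ fun z => ?_)
  have ordf : ∀ w, R.rp w = z →
      w.ord (Φ * u ^ l) = l * (D1 w - if w = B.io z then D0 z else 0) := fun w hw => by
    have e : (D0.mapDomain B.io) w = if w = B.io z then D0 z else 0 := by
      split_ifs with e
      · rw [e, Finsupp.mapDomain_apply B.io_inj]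
      · refine Finsupp.mapDomain_of_notMem_range _ _ ?_
        rintro ⟨z', rfl⟩
        rw [rp_io' B R GK] at hw
        exact e (by rw [hw])
    rw [← GF.ap, df, ← e, hD1]
    simp only [Finsupp.smul_apply, Finsupp.add_apply, smul_eq_mul]
    ring
  by_cases hz : z ∈ S
  · rw [D0ap, if_pos hz]
    obtain ⟨ξ, hξ, hξ1⟩ := fib_one R.rp D1 z (fun w _ => D1pos w)
      (by rw [hrp0, D0ap, if_pos hz])
    refine disc_bound R hDISC hK B.ff GK GF z ξ (B.io z) hξ (rp_io' B R GK z) (B.io_val z) l hl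
      _ f0 (fun w hw => ?_) a c ⟨_, hφ⟩ rfl
    rw [ordf w hw, hξ1 w hw, D0ap, if_pos hz]
  · rw [D0ap, if_neg hz, exp_zero]
    refine nopole R GK GF _ z fun w hw => ?_
    show w.val (algebraMap Ω B.F a * (Φ * u ^ l - algebraMap Ω B.F c)) ≤ 1
    rw [map_mul]
    refine mul_le_one' (w.const_le _) ((w.val.map_sub _ _).trans (max_le ?_ (w.const_le _)))
    rw [w.val_le_one (w.val_ne f0), ordf w hw, D0ap, if_neg hz, ite_self, sub_zero]
    exact mul_nonneg (Int.natCast_nonneg l) (D1pos w)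

theorem exists_KP (hCHEV : StmtCHEV) (k Ω : Type) [Field k] [IsAlgClosed k] [Field Ω]
    [Algebra k Ω] : Nonempty (KP k Ω) := by
  obtain ⟨P, -⟩ := hCHEV k Ω ((algebraMap k Ω).prod (RingHom.id k)).range (fun c => ⟨c, rfl⟩)
    (by
      rintro c ⟨d, hd⟩
      have h1 : algebraMap k Ω d = 0 := congrArg Prod.fst hd
      have h2 : d = c := congrArg Prod.snd hd
      rw [← h2]
      simpa using h1)
  exact ⟨P⟩

theorem rig_of (hGd : StmtGd) (hLL : StmtLL) (hCHEV : StmtCHEV) (hRED : StmtRED)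
    (hRIGD : StmtRIGD) : StmtRIG := by
  intro k K Ω _ _ _ _ _ _ _ B l hK hl Φ hΦ hdvd
  have GK := hGd k K hK
  have GF := hGd Ω B.F B.ff
  obtain ⟨P⟩ := exists_KP hCHEV k Ω
  obtain ⟨R⟩ := hRED k K Ω B.toBCD P hK
  have l0 : l ≠ 0 := fun e => hl (by simp [e])
  obtain ⟨a, x, ha, hx, rx⟩ := exists_norm R hΦ
  have dx : dv Ω (x : B.F) = dv Ω Φ := by
    rw [hx, GF.mul (by simpa using ha) hΦ, GF.const, zero_add]
  let D : Dv Ω B.F := (dv Ω Φ).mapRange (· / (l : ℤ)) (by simp)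
  have hD : dv Ω Φ = (l : ℤ) • D := by
    ext w
    simp only [D, Finsupp.smul_apply, Finsupp.mapRange_apply, smul_eq_mul]
    rw [GF.ap, Int.mul_ediv_cancel' (hdvd w)]
  have df : dv k (R.red x) = (l : ℤ) • D.mapDomain R.rp := by
    rw [R.rt x rx, dx, hD, Finsupp.mapDomain_smul]
  have f0 : algebraMap K B.F (R.red x) ≠ 0 := by simpa using rx
  have d1 : dv Ω (Φ * (algebraMap K B.F (R.red x))⁻¹) =
      (l : ℤ) • (D - (D.mapDomain R.rp).mapDomain B.io) := by
    rw [GF.mul hΦ (inv_ne_zero f0), GF.inv, B.io_dv, df, hD, Finsupp.mapDomain_smul, smul_sub,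
      sub_eq_add_neg]
  obtain ⟨Ψ, Ψ0, hΨ⟩ := hRIGD k K Ω B P R l hK hl _ _ 1 (mul_ne_zero hΦ (inv_ne_zero f0)) d1
    one_ne_zero (by rw [Finsupp.mapDomain_sub, map_io_rp B R GK, sub_self, GK.one])
  have q0 : Φ * (algebraMap K B.F (R.red x))⁻¹ * (Ψ ^ l)⁻¹ ≠ 0 :=
    mul_ne_zero (mul_ne_zero hΦ (inv_ne_zero f0)) (inv_ne_zero (pow_ne_zero _ Ψ0))
  obtain ⟨b, hb⟩ := (hLL Ω B.F B.ff).2.2.1 _ ((GF.memLL q0).2 fun w => by
    rw [GF.mul (mul_ne_zero hΦ (inv_ne_zero f0)) (inv_ne_zero (pow_ne_zero _ Ψ0)), GF.inv,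
      GF.pow, hΨ, d1]
    simp)
  obtain ⟨β, hβ⟩ := IsAlgClosed.exists_pow_nat_eq b (Nat.pos_of_ne_zero l0)
  have β0 : β ≠ 0 := by
    rintro rfl
    rw [zero_pow l0] at hβ
    rw [← hβ, map_zero] at hb
    exact q0 hb.symm
  refine ⟨R.red x, algebraMap Ω B.F β * Ψ, rx, mul_ne_zero (by simpa using β0) Ψ0,
    fun z => ?_, ?_⟩
  · rw [← GK.ap, df]
    exact Dvd.intro _ rfl
  · rw [mul_pow, ← map_pow, hβ, hb]
    field_simp

end Pool.Agent.MP_cce4c9_lc.H54
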