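import Pool.Agent.MP_cce4c9_lc.H7.BaseA
import Pool.Agent.MP_cce4c9_lc.H54.RigB

/-! Rigidity of torsion classes under base change. -/

set_option autoImplicit false

namespace Pool.Agent.MP_cce4c9_lc.H54

open Pool.Agent.MP_cce4c9_lc.H7

theorem gd : StmtGd := fun _ _ _ _ _ _ hK => ⟨res hK, fins hK⟩

theorem rigd : StmtLL → StmtDEG → StmtGEN → StmtDISC → StmtRIGD := rigd_of gd

theorem rig : StmtLL → StmtCHEV → StmtRED → StmtRIGD → StmtRIG := rig_of gd

end Pool.Agent.MP_cce4c9_lc.H54
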