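import Pool.Agent.MP_cce4c9_lc.H87.SpecQ

/-! Properties of the two representation relations. -/

set_option autoImplicit false

open WithZero Polynomial Finset

namespace Pool.Agent.MP_cce4c9_lc.H54

open Pool.Agent.MP_cce4c9_lc.H87 Pool.Agent.MP_cce4c9_lc.H87.Cv

theorem mk_prod {H ι : Type} [CommGroup H] (l : ℕ) (s : Finset ι) (u : ι → H) (β : ι → ℕ) :
    Hl.mk l (∏ i ∈ s, u i ^ β i) = ∑ i ∈ s, β i • Hl.mk l (u i) := by
  classical
  induction s using Finset.induction_on with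
  | empty => simpa using Hl.mk_one l
  | insert a s ha ih => rw [prod_insert ha, sum_insert ha, Hl.mk_mul, Hl.mk_pow, ih]

theorem ds_le {d : ℕ} (hd : 0 < d) (m J : ℕ) : ds d m J ≤ w0 d m := by
  rw [ds_eq, w0]
  refine (sum_le_card_nsmul _ _ (d - 1) fun i _ => ?_).trans (by simp)
  exact Nat.le_sub_one_of_lt (Nat.mod_lt _ hd)

variable {k : Type} [Field k] {d m : ℕ} {f : k[X]} {C : Cv k d m f}

theorem hat_congr {N : ℕ} {c c' : ℕ → ℕ → k}
    (h : ∀ J < d ^ m, ∀ e, e + ds d m J ≤ N → c e J = c' e J) : C.hat N c = C.hat N c' :=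
  sum_congr rfl fun J hJ => sum_congr rfl fun e he => by
    rw [h J (mem_range.1 hJ) e (by have := mem_range.1 he; omega)]

theorem hat_sub (N : ℕ) (c c' : ℕ → ℕ → k) :
    C.hat N (fun e J => c e J - c' e J) = C.hat N c - C.hat N c' := by
  simp only [hat, map_sub, sub_mul, sum_sub_distrib]

theorem act_s (σ : C.Aut) : σ.1.1 C.s = C.s := congrArg Units.val (actU_su σ)

theorem act_hat {q : ℕ} (σ : C.Aut) (hσ : IsFrob q σ.1) (N : ℕ) (c : ℕ → ℕ → k) :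
    σ.1.1 (C.hat N c) = C.hat N fun e J => c e J ^ q := by
  rw [hat, hat, map_sum]
  refine sum_congr rfl fun J _ => ?_
  rw [map_sum]
  refine sum_congr rfl fun e _ => ?_
  rw [map_mul, hσ, mono, map_mul, map_pow σ.1.1, act_s, map_prod]
  congr 2
  refine prod_congr rfl fun i hi => ?_
  rw [map_pow, Y, map_mul, act_s, σ.2.2.2 i (mem_range.1 hi)]

theorem dlh_unit (hH : C.HA) : IsUnit C.dlh := (C.su.isUnit.pow _).mul hH.dlU

theorem val_root {l : ℕ} [NeZero l] (u : rootsOfUnity l C.Q) (v : Place k C.Q) :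
    v.val (u.1 : C.Q) = 1 := by
  have h := congrArg v.val ((mem_rootsOfUnity' l u.1).1 u.2)
  rw [map_pow, map_one] at h
  exact (pow_eq_one_iff_left (NeZero.ne l)).1 h

theorem ex_tab {l : ℕ} [NeZero l] (hH : C.HA) (hD : C.DE) (u : rootsOfUnity l C.Q) :
    ∃ c : ℕ → ℕ → k, C.dlh * (u.1 : C.Q) = C.hat (2 * w0 d m) c ∧
      ∀ e J, w0 d m < e ∨ d ^ m ≤ J → c e J = 0 := by
  have e1 : C.dl * (u.1 : C.Q) * C.s ^ w0 d m = C.dlh * (u.1 : C.Q) := by rw [dlh]; ring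
  have h := hD.mem (w0 d m) (C.dl * (u.1 : C.Q))
    ⟨0, zero_mem _, fun v _ => by rw [sub_zero, map_mul, val_root, mul_one]⟩
    ⟨0, zero_mem _, fun v _ => by rw [sub_zero, e1, map_mul, val_root, mul_one]⟩
  rw [e1] at h
  obtain ⟨c, hc⟩ := (hH.memF _ _).1 h
  refine ⟨fun e J => if J < d ^ m ∧ e + ds d m J ≤ w0 d m then c e J else 0, ?_,
    fun e J h => if_neg (by omega)⟩
  rw [hc, hH.hat_rec _ (2 * w0 d m + 1) _ (by omega), hH.hat_rec _ (2 * w0 d m + 1) _ (by omega)]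
  refine sum_congr rfl fun J hJ => sum_congr rfl fun e _ => ?_
  have hJ' := mem_range.1 hJ
  congr 2
  beta_reduce
  by_cases h1 : e + ds d m J ≤ w0 d m
  · rw [if_pos h1, if_pos (by omega), if_pos ⟨hJ', h1⟩]
  · rw [if_neg h1, if_neg (show ¬ (J < d ^ m ∧ e + ds d m J ≤ w0 d m) from fun h => h1 h.2),
      ite_self]

theorem rl : StmtRL := by
  intro k _ _ l d m hl f C hfin hQ hH hD
  have : NeZero l := ⟨hl.out.ne_zero⟩
  have hu := dlh_unit hH
  have inj : ∀ u u' : rootsOfUnity l C.Q, C.dlh * (u.1 : C.Q) = C.dlh * (u'.1 : C.Q) → u = u' :=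
    fun u u' h => Subtype.ext (Units.ext (hu.mul_left_cancel h))
  refine ⟨?_, ?_, ?_, ?_, ?_, ?_, ?_, ?_, ?_, ?_, ?_⟩
  · rintro c a a' ⟨u, h1, -, h3⟩ ⟨u', h1', -, h3'⟩
    have : u = u' := Subtype.ext (Units.ext (h1.trans h1'.symm))
    exact Subtype.ext (by rw [← h3, ← h3', this])
  · rintro c c' a h ⟨u, h1, h2, h3⟩
    exact ⟨u, by rw [h1, psi, psi, hat_congr h], h2, h3⟩
  · rintro q σ hσ c a ⟨u, h1, ⟨g1, g2, g3⟩, h3⟩
    refine ⟨actG σ u, ?_, ⟨g1.act σ, ?_, fun v => ?_⟩, ?_⟩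
    · show σ.1.1 (u.1 : C.Q) = _
      rw [h1, psi, psi, map_mul, map_pow, σ.2.1, act_hat σ hσ]
    · obtain ⟨c', hc'⟩ := (hH.memF _ _).1 g2
      refine (hH.memF _ _).2 ⟨fun e J => c' e J ^ q, ?_⟩
      rw [← act_hat σ hσ, ← hc', map_mul, map_pow, act_s]
      rfl
    · have := smul_ord_apply σ.1 (σ.1⁻¹ • v) (u.1 : C.Q)
      rw [smul_inv_smul] at this
      show (l : ℤ) ∣ v.ord (σ.1.1 (u.1 : C.Q))
      rw [this]
      exact g3 _
    · show _ = Hl.map l (actG σ) a.1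
      rw [← h3]
      rfl
  · intro u c h1 h2
    exact ⟨⟨Hl.mk l ⟨u, _, h2.1⟩, mem_MM.2 ⟨_, rfl, ⟨N0 d m, by exact_mod_cast h2.1⟩, h2.2.2⟩⟩,
      ⟨u, _, h2.1⟩, h1, h2, rfl⟩
  · rintro c a a' ⟨u, h1, rfl⟩ ⟨u', h1', rfl⟩
    rw [inj u u' (h1.trans h1'.symm)]
  · rintro c c' a h ⟨u, h1, h2⟩
    exact ⟨u, by rw [h1, hat_congr h], h2⟩
  · rintro q σ hσ c a ⟨u, h1, rfl⟩
    refine ⟨restrictRootsOfUnity σ.1.1 l u, ?_, rfl⟩
    rw [restrictRootsOfUnity_coe_apply, ← act_hat σ hσ, ← h1, map_mul, dlh, map_mul, map_pow,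
      act_s, σ.2.2.1]
  · intro c
    constructor
    · rintro ⟨a, u, h1, -⟩
      rw [← h1, mul_pow, (mem_rootsOfUnity' l u.1).1 u.2, mul_one]
    · intro h
      obtain ⟨w, hw⟩ := hu
      have h1 : ((w⁻¹ : C.Qˣ) * C.hat (2 * w0 d m) c) ^ l = 1 := by
        rw [mul_pow, h, ← hw, ← mul_pow, w.inv_mul, one_pow]
      refine ⟨_, rootsOfUnity.mkOfPowEq _ h1, ?_, rfl⟩
      rw [rootsOfUnity.coe_mkOfPowEq, ← hw, ← mul_assoc, w.mul_inv, one_mul]
  · intro a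
    obtain ⟨u, rfl⟩ := Hl.mk_surj l a
    obtain ⟨c, h1, h2⟩ := ex_tab hH hD u
    exact ⟨c, ⟨u, h1, rfl⟩, h2⟩
  · classical
    choose T hT _ using fun u : rootsOfUnity l C.Q => ex_tab hH hD u
    have := Fintype.ofFinite (rootsOfUnity l C.Q)
    refine ⟨(univ ×ˢ range (d ^ m) ×ˢ range (w0 d m + 1)).image fun z => T z.1 z.2.2 z.2.1, ?_⟩
    rintro c a ⟨u, h1, -⟩ J hJ e he
    have h2 := hH.indh (2 * w0 d m) (fun e J => c e J - T u e J)
      (by rw [hat_sub, ← h1, ← hT u, sub_self]) J hJ e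
      (by have := ds_le (d := d) (by have := C.hd; omega) m J; omega)
    exact mem_image.2 ⟨(u, J, e), by simp [hJ, he], (sub_eq_zero.1 h2).symm⟩
  · intro n c a β h
    choose! u h1 h2 using h
    have e1 : ∏ i ∈ range n, C.hat (2 * w0 d m) (c i) ^ β i = C.dlh ^ (∑ i ∈ range n, β i) *
        ((∏ i ∈ range n, u i ^ β i : rootsOfUnity l C.Q).1 : C.Q) := by
      rw [← prod_pow_eq_pow_sum]
      simp only [SubmonoidClass.coe_finsetProd, Subgroup.coe_pow, Units.coe_prod,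
        Units.val_pow_eq_pow_val]
      rw [← prod_mul_distrib]
      exact prod_congr rfl fun i hi => by rw [← h1 i (mem_range.1 hi), mul_pow]
    have e2 : ∑ i ∈ range n, β i • a i = Hl.mk l (∏ i ∈ range n, u i ^ β i) := by
      rw [mk_prod]
      exact sum_congr rfl fun i hi => by rw [h2 i (mem_range.1 hi)]
    rw [e1, e2, (hu.pow _).mul_eq_left, Hl.mk_eq_zero]
    constructor
    · intro h
      exact ⟨1, by rw [one_pow]; exact Subtype.ext (Units.ext h.symm)⟩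
    · rintro ⟨b, hb⟩
      rw [← hb]
      exact (mem_rootsOfUnity' l b.1).1 b.2

end Pool.Agent.MP_cce4c9_lc.H54
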