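import Pool.Agent.MP_cce4c9_lc.H7.Spec

/-! Rigidity, first part: divisors, fibres of a reduction, and the estimate in a residue disc. -/

set_option autoImplicit false

open WithZero Finsupp Module
open scoped IntermediateField

namespace Pool.Agent.MP_cce4c9_lc.H54

open Pool.Agent.MP_cce4c9_lc.H87 Pool.Agent.MP_cce4c9_lc.H7

/-- Residue fields are `k` and divisors of functions have finite support. -/
structure Gd (k K : Type) [Field k] [Field K] [Algebra k K] : Prop where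
  res : ∀ v : Place k K, v.Res
  fins : ∀ h : K, (Function.support fun v : Place k K => v.ord h).Finite

section Dv

variable {k K : Type} [Field k] [Field K] [Algebra k K]

theorem Gd.ap (H : Gd k K) (h : K) (v : Place k K) : dv k h v = v.ord h := dv_apply (H.fins h) v

theorem Gd.mul (H : Gd k K) {a b : K} (ha : a ≠ 0) (hb : b ≠ 0) :
    dv k (a * b) = dv k a + dv k b := by
  ext v
  simp [H.ap, v.ord_mul (v.val_ne ha) (v.val_ne hb)]

theorem Gd.pow (H : Gd k K) (a : K) (n : ℕ) : dv k (a ^ n) = (n : ℤ) • dv k a := by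
  ext v
  simp [H.ap, v.ord_pow]

theorem Gd.inv (H : Gd k K) (a : K) : dv k a⁻¹ = -dv k a := by
  ext v
  simp [H.ap, v.ord_inv]

theorem Gd.const (H : Gd k K) (c : k) : dv k (algebraMap k K c) = 0 := by
  ext v
  simp [H.ap]

theorem Gd.one (H : Gd k K) : dv k (1 : K) = 0 := by simpa using H.const 1

theorem Gd.memLL (H : Gd k K) {h : K} (h0 : h ≠ 0) {D : Dv k K} :
    h ∈ LL D ↔ ∀ v, 0 ≤ (D + dv k h) v := by
  rw [mem_LL]
  refine forall_congr' fun v => ?_
  rw [v.val_le_exp (v.val_ne h0), Finsupp.add_apply, H.ap]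
  omega

end Dv

section Fib

variable {α β : Type}

open Classical in
theorem fib_eq (f : α → β) (D : α →₀ ℤ) (z : β) :
    D.mapDomain f z = ∑ a ∈ D.support, if f a = z then D a else 0 := by
  rw [Finsupp.mapDomain, Finsupp.sum_apply, Finsupp.sum]
  exact Finset.sum_congr rfl fun a _ => by rw [Finsupp.single_apply]

theorem fib_nonneg (f : α → β) (D : α →₀ ℤ) (z : β) (h : ∀ a, f a = z → 0 ≤ D a) :
    0 ≤ D.mapDomain f z := by
  classical
  rw [fib_eq]
  refine Finset.sum_nonneg fun a _ => ?_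
  split_ifs with e
  exacts [h a e, le_rfl]

theorem fib_le (f : α → β) (D : α →₀ ℤ) (z : β) (h : ∀ a, f a = z → 0 ≤ D a) (w : α)
    (hw : f w = z) : D w ≤ D.mapDomain f z := by
  classical
  have h1 := fib_nonneg f (D - single w (D w)) z fun a e => by
    rw [Finsupp.sub_apply, Finsupp.single_apply]
    split_ifs with e'
    · simp [e']
    · simpa using h a e
  rw [Finsupp.mapDomain_sub, Finsupp.mapDomain_single, hw, Finsupp.sub_apply,
    Finsupp.single_eq_same] at h1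
  omega

theorem fib_zero (f : α → β) (D : α →₀ ℤ) (z : β) (h : ∀ a, f a = z → 0 ≤ D a)
    (h0 : D.mapDomain f z = 0) (w : α) (hw : f w = z) : D w = 0 :=
  le_antisymm (h0 ▸ fib_le f D z h w hw) (h w hw)

open Classical in
theorem fib_one (f : α → β) (D : α →₀ ℤ) (z : β) (h : ∀ a, f a = z → 0 ≤ D a)
    (h1 : D.mapDomain f z = 1) :
    ∃ ξ, f ξ = z ∧ ∀ w, f w = z → D w = if w = ξ then 1 else 0 := by
  obtain ⟨ξ, hξ, hne⟩ : ∃ ξ, f ξ = z ∧ D ξ ≠ 0 := by
    by_contra hc
    push Not at hc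
    rw [fib_eq, Finset.sum_eq_zero] at h1
    · exact zero_ne_one h1
    · intro a _
      split_ifs with e
      exacts [hc a e, rfl]
  have e1 : D ξ = 1 := by
    have := fib_le f D z h ξ hξ
    have := h ξ hξ
    omega
  refine ⟨ξ, hξ, fun w hw => ?_⟩
  have := fib_zero f (D - single ξ 1) z (fun a e => by
    rw [Finsupp.sub_apply, Finsupp.single_apply]
    split_ifs with e'
    · rw [← e', e1]; simp
    · simpa using h a e) (by
    rw [Finsupp.mapDomain_sub, Finsupp.mapDomain_single, hξ, Finsupp.sub_apply,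
      Finsupp.single_eq_same, h1, sub_self]) w hw
  rw [Finsupp.sub_apply, Finsupp.single_apply] at this
  by_cases e : w = ξ
  · rw [if_pos e, e, e1]
  · rw [if_neg e]
    rw [if_neg (Ne.symm e)] at this
    simpa using this

end Fib

section Red

variable {k K Ω : Type} [Field k] [Field K] [Algebra k K] [Field Ω] [Algebra k Ω]
  {B : BCD k K Ω} {P : KP k Ω} (R : Red B P)

theorem val_one_of_red (x : R.G) (hx : R.red x ≠ 0) : R.G.valuation (x : B.F) = 1 :=
  le_antisymm (R.G.valuation_le_one x) (not_lt.1 fun h => hx ((R.ker x).2 h))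

theorem inv_mem_of_red (x : R.G) (hx : R.red x ≠ 0) : (x : B.F)⁻¹ ∈ R.G := by
  rw [← ValuationSubring.valuation_le_one_iff, map_inv₀, val_one_of_red R x hx, inv_one]

theorem ne_of_red (x : R.G) (hx : R.red x ≠ 0) : (x : B.F) ≠ 0 := fun h => by
  have : x = 0 := Subtype.ext h
  exact hx (by rw [this, map_zero])

/-- Normalization by a constant. -/
theorem exists_norm {u : B.F} (hu : u ≠ 0) :
    ∃ (a : Ω) (x : R.G), a ≠ 0 ∧ (x : B.F) = algebraMap Ω B.F a * u ∧ R.red x ≠ 0 := by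
  obtain ⟨a, ha⟩ := R.norm u hu
  refine ⟨a, ⟨_, (R.G.valuation_le_one_iff _).1 ha.le⟩, ?_, rfl, fun h => ?_⟩
  · rintro rfl
    simp at ha
  · exact absurd ((R.ker _).1 h) (by rw [ha]; exact lt_irrefl _)

/-- A function without poles in a residue disc has a regular reduction. -/
theorem nopole (GK : Gd k K) (GF : Gd Ω B.F) (A : R.G) (z : Place k K)
    (hA : ∀ w, R.rp w = z → w.val (A : B.F) ≤ 1) : z.val (R.red A) ≤ 1 := by
  by_cases h0 : R.red A = 0
  · simp [h0]
  rw [z.val_le_one (z.val_ne h0), ← GK.ap, R.rt A h0]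
  refine fib_nonneg _ _ _ fun w hw => ?_
  rw [GF.ap, ← w.val_le_one (w.val_ne (ne_of_red R A h0))]
  exact hA w hw

theorem split_bound (GK : Gd k K) (GF : Gd Ω B.F) (z : Place k K) (γ δ φ : R.G) (W : B.F)
    (b : Ω) (hγ : R.red γ = 1) (hδ : z.val (R.red δ) = exp 1)
    (hW : ∀ w, R.rp w = z → w.val W ≤ 1)
    (hφ : (φ : B.F) = W * γ + algebraMap Ω B.F b * δ) : z.val (R.red φ) ≤ exp 1 := by
  have hγ0 : R.red γ ≠ 0 := by rw [hγ]; exact one_ne_zero
  have hγi := inv_mem_of_red R γ hγ0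
  have hγn := ne_of_red R γ hγ0
  have h1e : (1 : ℤᵐ⁰) < exp 1 := by rw [← exp_zero, exp_lt_exp]; omega
  by_cases hb : b ∈ P.O
  · have hbG := (R.memΩ b).2 hb
    have hWG : W ∈ R.G := by
      have : W = ((φ : B.F) - algebraMap Ω B.F b * δ) * (γ : B.F)⁻¹ := by
        rw [hφ]; field_simp; ring
      rw [this]
      exact mul_mem (sub_mem φ.2 (mul_mem hbG δ.2)) hγi
    have e : φ = ⟨W, hWG⟩ * γ + ⟨_, hbG⟩ * δ := Subtype.ext hφ
    rw [e, map_add, map_mul, map_mul, hγ, mul_one, R.redΩ ⟨b, hb⟩]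
    refine (z.val.map_add _ _).trans (max_le ((nopole R GK GF _ z hW).trans h1e.le) ?_)
    rw [map_mul, hδ]
    exact mul_le_of_le_one_left' (z.const_le _)
  · exfalso
    have hb0 : b ≠ 0 := fun e => hb (e ▸ P.O.zero_mem)
    have hbi : b⁻¹ ∈ P.O := (P.O.mem_or_inv_mem b).resolve_left hb
    have hbv : P.ρ ⟨_, hbi⟩ = 0 := by
      rw [P.ker]
      show P.O.valuation b⁻¹ < 1
      rw [map_inv₀, inv_lt_one₀ (zero_lt_iff.2 (by simpa using hb0))]
      exact not_le.1 fun h => hb ((P.O.valuation_le_one_iff b).1 h)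
    have hbG := (R.memΩ b⁻¹).2 hbi
    have hb' : algebraMap Ω B.F b ≠ 0 := by simpa using hb0
    have hWG : algebraMap Ω B.F b⁻¹ * W ∈ R.G := by
      have : algebraMap Ω B.F b⁻¹ * W =
          (algebraMap Ω B.F b⁻¹ * (φ : B.F) - δ) * (γ : B.F)⁻¹ := by
        rw [hφ, map_inv₀]; field_simp; ring
      rw [this]
      exact mul_mem (sub_mem (mul_mem hbG φ.2) δ.2) hγi
    have e : ⟨_, hbG⟩ * φ = ⟨_, hWG⟩ * γ + δ := Subtype.ext (by
      show algebraMap Ω B.F b⁻¹ * (φ : B.F) = algebraMap Ω B.F b⁻¹ * W * γ + δ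
      rw [hφ, map_inv₀]; field_simp)
    have e2 := congrArg R.red e
    rw [map_mul, R.redΩ ⟨_, hbi⟩, hbv, map_zero, zero_mul, map_add, map_mul, hγ, mul_one] at e2
    have h3 := nopole R GK GF ⟨_, hWG⟩ z fun w hw => by
      show w.val (algebraMap Ω B.F b⁻¹ * W) ≤ 1
      rw [map_mul]
      exact mul_le_one' (w.const_le _) (hW w hw)
    rw [eq_neg_of_add_eq_zero_left e2.symm, Valuation.map_neg, hδ] at h3
    exact absurd h3 (not_le.2 h1e)

open Classical in
/-- The estimate in the residue disc of `z`: if `f` has divisor `l (ξ - ζ)` there, with `ζ` the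
constant point, then the reduction of `a (f - c)` has at most a simple pole at `z`. -/
theorem disc_bound [IsAlgClosed k] [IsAlgClosed Ω] (hDISC : StmtDISC) (hK : IsFF k K)
    (hF : IsFF Ω B.F) (GK : Gd k K) (GF : Gd Ω B.F) (z : Place k K) (ξ ζ : Place Ω B.F)
    (hξ : R.rp ξ = z) (hζ : R.rp ζ = z) (hζv : ∀ h : K, ζ.val (algebraMap K B.F h) = z.val h)
    (l : ℕ) (hl : (l : k) ≠ 0) (f : B.F) (f0 : f ≠ 0)
    (hf : ∀ w, R.rp w = z →
      w.ord f = l * ((if w = ξ then 1 else 0) - (if w = ζ then 1 else 0)))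
    (a c : Ω) (φ : R.G) (hφ : (φ : B.F) = algebraMap Ω B.F a * (f - algebraMap Ω B.F c)) :
    z.val (R.red φ) ≤ exp 1 := by
  obtain ⟨s, hs⟩ := z.exists_unif
  have hs1 : z.ord s = 1 := z.ord_eq hs
  have s0 : s ≠ 0 := fun e => by rw [e] at hs1; simp at hs1
  have hslt : z.val s < 1 := by rw [hs, ← exp_zero, exp_lt_exp]; omega
  set t : B.F := algebraMap K B.F s with ht
  have t0 : t ≠ 0 := by simpa [ht] using s0
  set ε : Ω := ξ.ev t with hε
  have d1 := (hDISC k K Ω B P R hK hF ξ s (by rw [hξ, hs1])).1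
  have d2 := (hDISC k K Ω B P R hK hF ζ s (by rw [hζ, hs1])).1
  rw [← ht] at d1 d2
  rw [← hε, hξ] at d1
  rw [hζ, ζ.ev_of_lt (by rw [ht, hζv]; exact hslt), map_zero, sub_zero] at d2
  obtain ⟨hεO, hερ⟩ := R.rp_ev ξ s (by rw [hξ]; exact hslt.le)
  rw [hξ, z.ev_of_lt hslt] at hερ
  have te0 : t - algebraMap Ω B.F ε ≠ 0 := fun e => by
    have := d1 ξ hξ
    rw [e] at this
    simp at this
  let si : R.G := ⟨_, R.memK s⁻¹⟩
  let ep : R.G := ⟨_, (R.memΩ ε).2 hεO⟩
  have rsi : R.red si = s⁻¹ := R.redK _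
  have rep : R.red ep = 0 := by
    have := R.redΩ ⟨ε, hεO⟩
    rw [hερ, map_zero] at this
    exact this
  let x : R.G := 1 - ep * si
  have rx : R.red x = 1 := by simp [x, rep]
  have xv : (x : B.F) = (t - algebraMap Ω B.F ε) * t⁻¹ := by
    show 1 - algebraMap Ω B.F ε * algebraMap K B.F s⁻¹ = _
    rw [map_inv₀, ← ht]
    field_simp
  let δ : R.G := -(si * ∑ i ∈ Finset.range l, x ^ i)
  have rδ : R.red δ = -(s⁻¹ * algebraMap k K l) := by simp [δ, rsi, rx]
  have hγδ : x ^ l - 1 = ep * δ := by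
    rw [← geom_sum_mul]
    simp only [x, δ]
    ring
  have x0 : (x : B.F) ≠ 0 := by rw [xv]; exact mul_ne_zero te0 (inv_ne_zero t0)
  have xl0 : (x : B.F) ^ l ≠ 0 := pow_ne_zero _ x0
  refine split_bound R GK GF z (x ^ l) δ φ
    (algebraMap Ω B.F a * (f * ((x : B.F) ^ l)⁻¹ - algebraMap Ω B.F c)) (a * c * ε)
    (by rw [map_pow, rx, one_pow]) ?_ (fun w hw => ?_) ?_
  · rw [rδ, Valuation.map_neg, map_mul, z.triv _ hl, mul_one, map_inv₀, hs, ← exp_neg, neg_neg]
  · rw [map_mul]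
    refine mul_le_one' (w.const_le _) ((w.val.map_sub _ _).trans (max_le ?_ (w.const_le _)))
    rw [w.val_le_one (w.val_ne (mul_ne_zero f0 (inv_ne_zero xl0))),
      w.ord_mul (w.val_ne f0) (w.val_ne (inv_ne_zero xl0)), w.ord_inv, w.ord_pow, xv,
      w.ord_mul (w.val_ne te0) (w.val_ne (inv_ne_zero t0)), w.ord_inv, d1 w hw, d2 w hw, hf w hw]
    simp [sub_eq_add_neg]
  · have e := congrArg (fun y : R.G => (y : B.F)) hγδ
    have e' : (x : B.F) ^ l - 1 = algebraMap Ω B.F ε * (δ : B.F) := by simpa [ep] using e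
    rw [hφ, map_mul, map_mul, mul_assoc _ (algebraMap Ω B.F ε), ← e']
    push_cast
    field_simp
    ring

end Red

end Pool.Agent.MP_cce4c9_lc.H54
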